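import Pool.Agent.Y955.PF.Top
import Pool.Agent.Y955.PF.Iso
import Pool.Agent.Y955.PF.Pow
import Pool.Agent.Y955.PF.Mod
import Pool.Agent.Y955.PF.PA
import Pool.Agent.Y955.PF.PB
import Pool.Agent.Y955.PF.Alpha
import Pool.Agent.Y955.PF.Beta

set_option autoImplicit false

namespace Pool.Agent.Results.MP_505b57_nt.InfiniteSmallPrimes

open Pool.Agent.Y955.PF

/-- For every `d ≥ 2` and every prime `p ≤ d` the set `M_d(ℚ_p) ∩ PCF` is infinite: there are
infinitely many points of the moduli space of rational maps of degree `d` over the algebraic closure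
of `ℚ_p` which are rational over `ℚ_p` and are conjugacy classes of postcritically finite maps.

The definitions (`Rat`, `Moduli`, `RationalPoints`, `PCF`) are in `Pool/Agent/Y955/PF/Stm.lean`. -/
theorem result (p : ℕ) [Fact p.Prime] (d : ℕ) (hd : 2 ≤ d) (hpd : p ≤ d) :
    (RationalPoints p d ∩ PCF (AlgebraicClosure ℚ_[p]) d).Infinite :=
  top mod_inf (alpha_of iso pow_norm) beta pa pb p d hd hpd

end Pool.Agent.Results.MP_505b57_nt.InfiniteSmallPrimes
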