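import Pool.Agent.Y19.TP.Asm3
import Pool.Agent.Y19.TP.INTC
import Pool.Agent.Y19.TP.INFKA
import Pool.Agent.Y65.TP.CNT
import Pool.Agent.Y65.TP.ROLLE
import Pool.Agent.Y65.TP.PIG
import Pool.Agent.Y83.TP.INT
import Pool.Agent.Y888.TP.PER
import Pool.Agent.Y182.TP.NOETH
import Pool.Agent.Y891.TP.NORM
import Pool.Agent.Y891.TP.VART
import Pool.Agent.Y970.TP.VAR
import Pool.Agent.Y339.TP.ISO
import Pool.Agent.Y435.TP.ROLLEW
import Pool.Agent.Y930.TP.DISCW
import Pool.Agent.Y986.TP.TAILW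
import Pool.Agent.Y293.TP.DSC
import Pool.Agent.Y675.TP.FLDW
import Pool.Agent.Y339.TP.BERN
import Pool.Agent.Y309.TP.INFKB
import Pool.Agent.Y19.TP.DYNN
import Pool.Agent.Y19.TP.ALGN
set_option autoImplicit false

/-!
# Postcritically finite polynomials over `p`-adic fields (MP_505b57_nt, Q2)

* For all `d ≥ 2`, all primes `p` and all finite extensions `K` of `ℚ_p` only finitely many points
  of `P_d(K) ∩ PCF` have potentially good reduction.
* For `d = c * p ^ s` with `c < p` (in particular for `p > d` and for `d = p ^ k`) all points of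
  `P_d ∩ PCF` have potentially good reduction and `P_d(K) ∩ PCF` is finite.
* For `p < d`, `p ∤ d`, there is an extension `K` of `ℚ_p` of degree at most `d mod p` such that
  `P_d(K) ∩ PCF` is infinite (`K = ℚ_p` if `p ∣ d - 1`).
* `P_d(ℚ_p) ∩ PCF` is infinite for `d = n k` with `k ≥ 2`, `2 v_p(n) < (k - 1) v_p(k - 1)`
  (for example if `p ∣ k - 1` and `p ∤ n`).
* So for `p ∤ d`: `P_d(K) ∩ PCF` is finite for all finite extensions `K` of `ℚ_p` if and only if
  `d < p`.
-/

namespace Pool.Agent.Results.MP_505b57_nt.PolynomialClasses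

open Polynomial

/-- Polynomials of degree exactly `d` over the field `K`. -/
def PolyOfDegree (K : Type) [Field K] (d : ℕ) : Type := {f : K[X] // f.natDegree = d}

/-- `f` and `g` are conjugate by an affine map: `f ∘ L = L ∘ g` for some `L(z) = a z + b`,
`a ≠ 0`. -/
def AffConj {K : Type} [Field K] (f g : K[X]) : Prop :=
  ∃ a b : K, a ≠ 0 ∧ f.comp (C a * X + C b) = C a * g + C b

/-- The polynomial map `f` is postcritically finite: every critical point (zero of the derivative)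
has a finite forward orbit. (The point at infinity is fixed.) -/
def IsPCF {K : Type} [Field K] (f : K[X]) : Prop :=
  ∀ z : K, (derivative f).eval z = 0 →
    (Set.range fun n : ℕ => (fun w : K => f.eval w)^[n] z).Finite

lemma affConj_refl {K : Type} [Field K] (f : K[X]) : AffConj f f :=
  ⟨1, 0, one_ne_zero, by simp⟩

lemma affConj_symm {K : Type} [Field K] {f g : K[X]} (h : AffConj f g) : AffConj g f := by
  obtain ⟨a, b, ha, h⟩ := h
  refine ⟨a⁻¹, -(a⁻¹ * b), inv_ne_zero ha, ?_⟩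
  have h1 : (C a * X + C b : K[X]).comp (C a⁻¹ * X + C (-(a⁻¹ * b))) = X := by
    have e : (C a * C a⁻¹ : K[X]) = 1 := by rw [← C_mul, mul_inv_cancel₀ ha, C_1]
    simp only [add_comp, mul_comp, C_comp, X_comp, map_neg, map_mul]
    linear_combination (X - C b) * e
  have h2 := congrArg (fun P : K[X] => P.comp (C a⁻¹ * X + C (-(a⁻¹ * b)))) h
  simp only [comp_assoc, h1, comp_X, add_comp, mul_comp, C_comp] at h2
  have e : (C a⁻¹ * C a : K[X]) = 1 := by rw [← C_mul, inv_mul_cancel₀ ha, C_1]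
  rw [h2]
  simp only [map_neg, map_mul]
  linear_combination (-(g.comp (C a⁻¹ * X + -(C a⁻¹ * C b)))) * e

lemma affConj_trans {K : Type} [Field K] {f g h : K[X]} (h1 : AffConj f g) (h2 : AffConj g h) :
    AffConj f h := by
  obtain ⟨a, b, ha, h1⟩ := h1
  obtain ⟨a', b', ha', h2⟩ := h2
  refine ⟨a * a', a * b' + b, mul_ne_zero ha ha', ?_⟩
  have e : (C (a * a') * X + C (a * b' + b) : K[X]) =
      (C a * X + C b : K[X]).comp (C a' * X + C b') := by
    simp only [add_comp, mul_comp, C_comp, X_comp, map_add, map_mul]; ring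
  rw [e, ← comp_assoc, h1, add_comp, mul_comp, C_comp, C_comp, h2]
  simp only [map_add, map_mul]; ring

/-- Affine conjugacy on polynomials of degree `d`. -/
instance conjSetoid (K : Type) [Field K] (d : ℕ) : Setoid (PolyOfDegree K d) where
  r f g := AffConj f.1 g.1
  iseqv := ⟨fun f => affConj_refl f.1, fun h => affConj_symm h, fun h1 h2 => affConj_trans h1 h2⟩

/-- The geometric points of the moduli space `P_d`: conjugacy classes of degree `d` polynomials
over the (algebraically closed) field `K`. -/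
def Moduli (K : Type) [Field K] (d : ℕ) : Type := Quotient (conjSetoid K d)

/-- The action of a field automorphism on the points of the moduli space. -/
noncomputable def galAct {K : Type} [Field K] (d : ℕ) (σ : K ≃+* K) : Moduli K d → Moduli K d :=
  Quotient.map (fun f => ⟨f.1.map (σ : K →+* K), by
    rw [natDegree_map_eq_of_injective σ.injective]; exact f.2⟩) (by
    rintro ⟨f, hf⟩ ⟨g, hg⟩ ⟨a, b, ha, h⟩
    refine ⟨σ a, σ b, (map_ne_zero_iff _ σ.injective).2 ha, ?_⟩
    have h2 := congrArg (Polynomial.map (σ : K →+* K)) h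
    simpa [Polynomial.map_comp] using h2)

/-- `P_d(K)` for an intermediate field `K` of the algebraic closure of `ℚ_p`: the points of the
moduli space over the algebraic closure that are fixed by the Galois group over `K`.  (`K = ⊥` is
the field `ℚ_p` itself.) -/
def RationalPoints (p : ℕ) [Fact p.Prime]
    (K : IntermediateField ℚ_[p] (AlgebraicClosure ℚ_[p])) (d : ℕ) :
    Set (Moduli (AlgebraicClosure ℚ_[p]) d) :=
  {x | ∀ σ : AlgebraicClosure ℚ_[p] ≃ₐ[K] AlgebraicClosure ℚ_[p], galAct d σ.toRingEquiv x = x}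

/-- Potentially good reduction: the class contains a monic polynomial whose coefficients have
`p`-adic norm at most one (the norm of `PadicAlgCl p = AlgebraicClosure ℚ_[p]` is the unique
extension of the `p`-adic norm). -/
def GoodReduction (p : ℕ) [Fact p.Prime] (d : ℕ) : Set (Moduli (PadicAlgCl p) d) :=
  {x | ∃ f : PolyOfDegree (PadicAlgCl p) d,
    (Quotient.mk (conjSetoid (PadicAlgCl p) d) f : Moduli (PadicAlgCl p) d) = x ∧
      f.1.Monic ∧ ∀ i, ‖f.1.coeff i‖ ≤ 1}

/-- The conjugacy classes of postcritically finite polynomials. -/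
def PCF (K : Type) [Field K] (d : ℕ) : Set (Moduli K d) :=
  {x | ∃ f : PolyOfDegree K d, (Quotient.mk (conjSetoid K d) f : Moduli K d) = x ∧ IsPCF f.1}

/-- Finiteness with potentially good reduction, for all `p` and `d`; good reduction and finiteness
for `d = c * p ^ s`, `c < p`; infinitude for `p < d`, `p ∤ d`, over an extension of degree at most
`d mod p`; the resulting criterion for `p ∤ d`; infinitude over `ℚ_p` for `d = n * k` with
`2 v_p(n) < (k - 1) v_p(k - 1)`. -/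
theorem result :
    (∀ (p : ℕ) [Fact p.Prime] (d : ℕ), 2 ≤ d →
      ∀ K : IntermediateField ℚ_[p] (AlgebraicClosure ℚ_[p]), FiniteDimensional ℚ_[p] K →
        (RationalPoints p K d ∩ PCF (AlgebraicClosure ℚ_[p]) d ∩ GoodReduction p d).Finite) ∧
    (∀ (p : ℕ) [Fact p.Prime] (d : ℕ), 2 ≤ d → (∃ c s : ℕ, c < p ∧ d = c * p ^ s) →
      PCF (AlgebraicClosure ℚ_[p]) d ⊆ GoodReduction p d ∧
      ∀ K : IntermediateField ℚ_[p] (AlgebraicClosure ℚ_[p]), FiniteDimensional ℚ_[p] K →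
        (RationalPoints p K d ∩ PCF (AlgebraicClosure ℚ_[p]) d).Finite) ∧
    (∀ (p : ℕ) [Fact p.Prime] (d : ℕ), p < d → ¬ p ∣ d →
      ∃ K : IntermediateField ℚ_[p] (AlgebraicClosure ℚ_[p]), FiniteDimensional ℚ_[p] K ∧
        Module.finrank ℚ_[p] K ≤ d % p ∧
        ∀ K' : IntermediateField ℚ_[p] (AlgebraicClosure ℚ_[p]), K ≤ K' →
          (RationalPoints p K' d ∩ PCF (AlgebraicClosure ℚ_[p]) d).Infinite) ∧
    (∀ (p : ℕ) [Fact p.Prime] (d : ℕ), 2 ≤ d → ¬ p ∣ d →
      ((∀ K : IntermediateField ℚ_[p] (AlgebraicClosure ℚ_[p]), FiniteDimensional ℚ_[p] K →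
        (RationalPoints p K d ∩ PCF (AlgebraicClosure ℚ_[p]) d).Finite) ↔ d < p)) ∧
    (∀ (p : ℕ) [Fact p.Prime] (n k : ℕ), 1 ≤ n → 2 ≤ k →
      2 * padicValNat p n < (k - 1) * padicValNat p (k - 1) →
      ∀ K : IntermediateField ℚ_[p] (AlgebraicClosure ℚ_[p]),
        (RationalPoints p K (n * k) ∩ PCF (AlgebraicClosure ℚ_[p]) (n * k)).Infinite) := by
  have hROLLEW := Pool.Agent.Y435.TP.t_ROLLEW
  have hTAILW : Pool.Agent.Y19.TP.TAILW := Pool.Agent.Y986.TP.t_TAILW (Pool.Agent.Y930.TP.t_DISCW hROLLEW)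
  have hPER : Pool.Agent.Y19.TP.PER := Pool.Agent.Y888.TP.t_PER
  have hPIG : Pool.Agent.Y19.TP.PIG := Pool.Agent.Y65.TP.t_PIG
  have hDSC : Pool.Agent.Y19.TP.DSC := Pool.Agent.Y293.TP.t_DSC
  have hFLDW : Pool.Agent.Y19.TP.FLDW := Pool.Agent.Y675.TP.t_FLDW
  have hROLLE : Pool.Agent.Y19.TP.ROLLE := Pool.Agent.Y65.TP.t_ROLLE Pool.Agent.Y65.TP.t_CNT
  have hINT : Pool.Agent.Y19.TP.INT := Pool.Agent.Y83.TP.t_INT hROLLE
  have hVAR : Pool.Agent.Y19.TP.VAR := Pool.Agent.Y970.TP.t_VAR Pool.Agent.Y182.TP.t_NOETH hINT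
  have hVART : Pool.Agent.Y19.TP.VART := Pool.Agent.Y891.TP.t_VART hVAR Pool.Agent.Y339.TP.t_ISO
  have hNORM : Pool.Agent.Y19.TP.NORM := Pool.Agent.Y891.TP.t_NORM
  have hINTC : Pool.Agent.Y19.TP.INTC := Pool.Agent.Y19.TP.t_INTC
  have hBERN : Pool.Agent.Y19.TP.BERN := Pool.Agent.Y339.TP.t_BERN
  have hINFKB : Pool.Agent.Y19.TP.INFKB := Pool.Agent.Y309.TP.t_INFKB hBERN
  have hINFKA : Pool.Agent.Y19.TP.INFKA := Pool.Agent.Y19.TP.t_INFKA hBERN hINFKB
  have hALGN : Pool.Agent.Y19.TP.ALGN := Pool.Agent.Y19.TP.t_ALGN Pool.Agent.Y19.TP.t_DYNN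
  have part1 : ∀ (p : ℕ) [Fact p.Prime] (d : ℕ), 2 ≤ d →
      ∀ K : IntermediateField ℚ_[p] (AlgebraicClosure ℚ_[p]), FiniteDimensional ℚ_[p] K →
        (RationalPoints p K d ∩ PCF (AlgebraicClosure ℚ_[p]) d ∩ GoodReduction p d).Finite := by
    intro p hp d hd K hK
    obtain ⟨V, hV, hV2⟩ := Pool.Agent.Y19.TP.asm2 p hTAILW hPER hPIG hDSC hFLDW hVART d hd K hK
    refine Set.Finite.subset (s := ⋃ g ∈ V, {x : Moduli (AlgebraicClosure ℚ_[p]) d |
      ∃ h : g.natDegree = d, x = Quotient.mk (conjSetoid _ d) ⟨g, h⟩}) ?_ ?_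
    · refine hV.biUnion fun g _ => ?_
      refine Set.Subsingleton.finite ?_
      rintro x ⟨h, rfl⟩ y ⟨h', rfl⟩
      rfl
    · rintro x ⟨⟨hx1, f, hfx, hf⟩, h, hhx, hh1, hh2⟩
      have hfh : AffConj f.1 h.1 := Quotient.exact (s := conjSetoid _ d) (hfx.trans hhx.symm)
      obtain ⟨g, hg, hgd, hfg⟩ := hV2 f.1 h.1 f.2 hf hfh hh1 h.2 hh2 (by
        intro σ
        have h1 := hx1 σ
        rw [← hfx] at h1
        exact Quotient.exact (s := conjSetoid _ d) h1)
      refine Set.mem_biUnion hg ⟨hgd, ?_⟩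
      rw [← hfx]
      exact Quotient.sound (s := conjSetoid _ d) (a := f)
        (b := (⟨g, hgd⟩ : PolyOfDegree (AlgebraicClosure ℚ_[p]) d)) hfg
  have part2 : ∀ (p : ℕ) [Fact p.Prime] (d : ℕ), 2 ≤ d → (∃ c s : ℕ, c < p ∧ d = c * p ^ s) →
      PCF (AlgebraicClosure ℚ_[p]) d ⊆ GoodReduction p d := by
    intro p hp d hd hdp x
    rintro ⟨f, hfx, hf⟩
    obtain ⟨h, h0, h1, h2, h3⟩ := Pool.Agent.Y19.TP.goodC p hNORM hINTC d hd hdp f.1 f.2 hf
    refine ⟨⟨h, h2⟩, ?_, h1, h3⟩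
    rw [← hfx]
    exact (Quotient.sound (s := conjSetoid _ d) (a := f)
      (b := (⟨h, h2⟩ : PolyOfDegree (AlgebraicClosure ℚ_[p]) d)) h0).symm
  have part2' : ∀ (p : ℕ) [Fact p.Prime] (d : ℕ), 2 ≤ d → (∃ c s : ℕ, c < p ∧ d = c * p ^ s) →
      ∀ K : IntermediateField ℚ_[p] (AlgebraicClosure ℚ_[p]), FiniteDimensional ℚ_[p] K →
        (RationalPoints p K d ∩ PCF (AlgebraicClosure ℚ_[p]) d).Finite := by
    intro p hp d hd hdp K hK
    refine (part1 p d hd K hK).subset ?_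
    rintro x ⟨hx1, hx2⟩
    exact ⟨⟨hx1, hx2⟩, part2 p d hd hdp hx2⟩
  have part3 : ∀ (p : ℕ) [Fact p.Prime] (d : ℕ), p < d → ¬ p ∣ d →
      ∃ K : IntermediateField ℚ_[p] (AlgebraicClosure ℚ_[p]), FiniteDimensional ℚ_[p] K ∧
        Module.finrank ℚ_[p] K ≤ d % p ∧
        ∀ K' : IntermediateField ℚ_[p] (AlgebraicClosure ℚ_[p]), K ≤ K' →
          (RationalPoints p K' d ∩ PCF (AlgebraicClosure ℚ_[p]) d).Infinite := by
    intro p hp d hpd hnd
    obtain ⟨K, hK1, hK2, W, hW, hWK, hW1, hW2⟩ := hINFKA p d hpd hnd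
    refine ⟨K, hK1, hK2, fun K' hKK' => ?_⟩
    classical
    let F : PadicAlgCl p → Moduli (AlgebraicClosure ℚ_[p]) d := fun v =>
      if h : (Pool.Agent.Y19.TP.fam2 (PadicAlgCl p) d (d - d % p) v).natDegree = d then
        Quotient.mk (conjSetoid _ d) ⟨_, h⟩
      else Quotient.mk (conjSetoid _ d) ⟨X ^ d, natDegree_X_pow d⟩
    have hF : ∀ v (hv : v ∈ W), F v = Quotient.mk (conjSetoid _ d) ⟨_, (hW1 v hv).1⟩ :=
      fun v hv => dif_pos (hW1 v hv).1
    refine Set.Infinite.mono (s := F '' W) ?_ (hW.image ?_)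
    · rintro _ ⟨v, hv, rfl⟩
      rw [hF v hv]
      refine ⟨?_, ⟨_, rfl, (hW1 v hv).2⟩⟩
      intro σ
      have e : (Pool.Agent.Y19.TP.fam2 (PadicAlgCl p) d (d - d % p) v).map
          (σ.toRingEquiv : AlgebraicClosure ℚ_[p] →+* AlgebraicClosure ℚ_[p]) =
          Pool.Agent.Y19.TP.fam2 (PadicAlgCl p) d (d - d % p) v := by
        have e1 : σ v = v := σ.commutes (⟨v, hKK' (hWK v hv)⟩ : K')
        simp [Pool.Agent.Y19.TP.fam2, Pool.Agent.Y19.TP.bern, Polynomial.map_sum, e1]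
      apply Quotient.sound (s := conjSetoid _ d)
      change AffConj _ _
      refine ⟨1, 0, one_ne_zero, ?_⟩
      simp only [e]
      simp
    · intro v hv v' hv' h
      rw [hF v hv, hF v' hv'] at h
      exact hW2 v hv v' hv' (Quotient.exact (s := conjSetoid _ d) h)
  have part5 : ∀ (p : ℕ) [Fact p.Prime] (n k : ℕ), 1 ≤ n → 2 ≤ k →
      2 * padicValNat p n < (k - 1) * padicValNat p (k - 1) →
      ∀ K : IntermediateField ℚ_[p] (AlgebraicClosure ℚ_[p]),
        (RationalPoints p K (n * k) ∩ PCF (AlgebraicClosure ℚ_[p]) (n * k)).Infinite := by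
    intro p hp n k hn hk hval K
    have hpk : p ∣ k - 1 := by
      apply dvd_of_one_le_padicValNat
      by_contra hcon
      have h0 : padicValNat p (k - 1) = 0 := by omega
      rw [h0, mul_zero] at hval
      omega
    have hk3 : 3 ≤ k := by
      have h1 := Nat.le_of_dvd (by omega) hpk
      have h2 := hp.out.two_le
      omega
    have hcond : ‖((k - 1 : ℕ) : ℚ_[p])‖ ^ (k - 1) < ‖(n : ℚ_[p])‖ ^ 2 := by
      have h1 : ((k - 1 : ℕ) : ℚ_[p]) ≠ 0 := Nat.cast_ne_zero.2 (by omega)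
      have h2 : (n : ℚ_[p]) ≠ 0 := Nat.cast_ne_zero.2 (by omega)
      have hp1 : (1 : ℝ) < (p : ℝ) := by exact_mod_cast hp.out.one_lt
      rw [Padic.norm_eq_zpow_neg_valuation h1, Padic.norm_eq_zpow_neg_valuation h2,
        Padic.valuation_natCast, Padic.valuation_natCast, ← zpow_natCast, ← zpow_natCast,
        ← zpow_mul, ← zpow_mul]
      apply zpow_lt_zpow_right₀ hp1
      have h3 : ((2 * padicValNat p n : ℕ) : ℤ) < (((k - 1) * padicValNat p (k - 1) : ℕ) : ℤ) := by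
        exact_mod_cast hval
      rw [Nat.cast_mul, Nat.cast_mul] at h3
      linarith
    obtain ⟨W, hW, hW1, hW2⟩ := hALGN p n k hk3 hpk (by omega) hcond
    classical
    let F : ℚ_[p] → Moduli (AlgebraicClosure ℚ_[p]) (n * k) := fun v =>
      if h : (Pool.Agent.Y19.TP.famn (PadicAlgCl p) n k
          (algebraMap ℚ_[p] (PadicAlgCl p) v)).natDegree = n * k then
        Quotient.mk (conjSetoid _ (n * k)) ⟨_, h⟩
      else Quotient.mk (conjSetoid _ (n * k)) ⟨X ^ (n * k), natDegree_X_pow (n * k)⟩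
    have hF : ∀ v (hv : v ∈ W), F v = Quotient.mk (conjSetoid _ (n * k)) ⟨_, (hW1 v hv).1⟩ :=
      fun v hv => dif_pos (hW1 v hv).1
    refine Set.Infinite.mono (s := F '' W) ?_ (hW.image ?_)
    · rintro _ ⟨v, hv, rfl⟩
      rw [hF v hv]
      refine ⟨?_, ⟨_, rfl, (hW1 v hv).2⟩⟩
      intro σ
      have e : (Pool.Agent.Y19.TP.famn (PadicAlgCl p) n k
          (algebraMap ℚ_[p] (PadicAlgCl p) v)).map
          (σ.toRingEquiv : AlgebraicClosure ℚ_[p] →+* AlgebraicClosure ℚ_[p]) =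
          Pool.Agent.Y19.TP.famn (PadicAlgCl p) n k (algebraMap ℚ_[p] (PadicAlgCl p) v) := by
        have e1 : σ (algebraMap ℚ_[p] (AlgebraicClosure ℚ_[p]) v) =
            algebraMap ℚ_[p] (AlgebraicClosure ℚ_[p]) v := by
          rw [IsScalarTower.algebraMap_apply ℚ_[p] K (AlgebraicClosure ℚ_[p])]
          exact σ.commutes _
        simp [Pool.Agent.Y19.TP.famn, Pool.Agent.Y19.TP.fam, e1]
      apply Quotient.sound (s := conjSetoid _ (n * k))
      change AffConj _ _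
      refine ⟨1, 0, one_ne_zero, ?_⟩
      simp only [e]
      simp
    · intro v hv v' hv' h
      rw [hF v hv, hF v' hv'] at h
      exact hW2 v hv v' hv' (Quotient.exact (s := conjSetoid _ (n * k)) h)
  refine ⟨part1, fun p _ d hd hdp => ⟨part2 p d hd hdp, part2' p d hd hdp⟩, part3, ?_, part5⟩
  intro p hp d hd hnd
  constructor
  · intro h
    by_contra hcon
    have hpd : p < d := by
      rcases Nat.lt_or_ge p d with h1 | h1
      · exact h1
      · have h2 : p = d := by omega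
        exact absurd (h2 ▸ dvd_refl p) hnd
    obtain ⟨K, hK1, _, hK3⟩ := part3 p d hpd hnd
    exact hK3 K le_rfl (h K hK1)
  · intro h K hK
    exact part2' p d hd ⟨d, 0, h, by simp⟩ K hK

end Pool.Agent.Results.MP_505b57_nt.PolynomialClasses
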